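import Pool.Agent.N679.SD.Kn

set_option autoImplicit false
open Filter Topology Finset
open scoped BoundedContinuousFunction

/-! Project BH: an inequality of Kneser type for sets of integers, with shifts in a Bohr set. -/

namespace Pool.Agent.N679.BH

open Pool.Agent.N679.SD
open Pool.Agent.W634.BQ Pool.Agent.W505.BQ Pool.Agent.W27.FB Pool.Agent.W142.TF
open Pool.Agent.W880.TF (cls_sp cls_per m_cls_sh sum_apply')

open KNaux

/-- BH-KN : as `Pool.Agent.N679.SD.S_KN`, for two sets `A`, two sets `B` and four shifts in a Bohr set. -/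
def S_KN2 : Prop := ∀ (ρ ε : ℝ), 0 < ε → ε < ρ → ρ ≤ 1 → ∃ τ : ℝ, 0 < τ ∧ ∀ D : ℕ, 1 ≤ D → ∀ U : Set ℤ,
  (∀ L₀ : ℕ, ∃ L : ℕ, L₀ ≤ L ∧ ∃ u : ℤ, ρ * L ≤ ({n : ℕ | n < L ∧ u + (n : ℤ) ∈ U}.ncard : ℝ)) →
  ∃ m : (ℤ →ᵇ ℝ) →ₗ[ℝ] ℝ, IsMean m ∧ ∃ (q : ℕ) (r : ℤ) (H : ℕ) (Λ : Finset Circle) (δ : ℝ), 1 ≤ q ∧ 1 ≤ H ∧
    0 < δ ∧ ∀ (A : Bool → Finset ℕ) (B : Bool → Set ℤ) (s : Bool → Bool → ℤ), (∀ a, A a ⊆ range H) →
      (∀ a b, (q : ℤ) * s a b ∈ Bo Λ δ) →
      (∀ a b, (q : ℝ) * ∑ i ∈ A a, m (ind {y : ℤ | (q : ℤ) ∣ y - r ∧ y ∈ B b ∧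
        y - D * (q * i) + q * s a b ∈ U}) ≤ τ * H) →
      ((A false ∪ A true).card : ℝ) ≤ ε * H ∨
      q * m (ind {y : ℤ | (q : ℤ) ∣ y - r ∧ y ∈ B false ∪ B true}) ≤ ε ∨
        ((A false ∪ A true).card : ℝ) / H +
          q * m (ind {y : ℤ | (q : ℤ) ∣ y - r ∧ y ∈ B false ∪ B true}) ≤ 1 - ρ + ε

/-- the almost periods of a trigonometric polynomial contain a Bohr set -/
theorem tor_ap {P : ℤ →ᵇ ℝ} {q : ℕ} (hP : Tor P q) {τ : ℝ} (hτ : 0 < τ) :
    ∃ (Λ : Finset Circle) (δ : ℝ), 0 < δ ∧ ∀ s ∈ Bo Λ δ, ∀ n : ℤ, |P (n + s) - P n| ≤ τ := by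
  obtain ⟨Λ, c, h1, -⟩ := hP
  have hS : 0 ≤ ∑ θ ∈ Λ, ‖c θ‖ := Finset.sum_nonneg fun _ _ => norm_nonneg _
  refine ⟨Λ, τ / (∑ θ ∈ Λ, ‖c θ‖ + 1), by positivity, fun s hs n => ?_⟩
  have e1 : (((P (n + s) - P n : ℝ)) : ℂ) = ∑ θ ∈ Λ, c θ * ((θ ^ n : Circle) : ℂ) * (((θ ^ s : Circle) : ℂ) - 1) := by
    push_cast
    rw [h1, h1, ← Finset.sum_sub_distrib]
    refine Finset.sum_congr rfl fun θ _ => ?_
    rw [zpow_add]
    push_cast
    ring
  have e2 : |P (n + s) - P n| = ‖(((P (n + s) - P n : ℝ)) : ℂ)‖ := by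
    rw [Complex.norm_real, Real.norm_eq_abs]
  rw [e2, e1]
  calc ‖∑ θ ∈ Λ, c θ * ((θ ^ n : Circle) : ℂ) * (((θ ^ s : Circle) : ℂ) - 1)‖
      ≤ ∑ θ ∈ Λ, ‖c θ * ((θ ^ n : Circle) : ℂ) * (((θ ^ s : Circle) : ℂ) - 1)‖ := norm_sum_le _ _
    _ ≤ ∑ θ ∈ Λ, ‖c θ‖ * (τ / (∑ θ ∈ Λ, ‖c θ‖ + 1)) := by
        refine Finset.sum_le_sum fun θ hθ => ?_
        rw [norm_mul, norm_mul, Circle.norm_coe, mul_one]
        exact mul_le_mul_of_nonneg_left (hs θ hθ).le (norm_nonneg _)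
    _ = (∑ θ ∈ Λ, ‖c θ‖) * (τ / (∑ θ ∈ Λ, ‖c θ‖ + 1)) := by rw [Finset.sum_mul]
    _ ≤ τ := by
        rw [mul_div_assoc', div_le_iff₀ (by positivity)]
        nlinarith

/-- shifting by an almost period -/
theorem shift_le {m : (ℤ →ᵇ ℝ) →ₗ[ℝ] ℝ} (hm : IsMean m) {q : ℕ} (hq : 1 ≤ q) (r : ℤ) (B : Set ℤ)
    {P : ℤ →ᵇ ℝ} {τ : ℝ} {c c' : ℤ} (h : ∀ n : ℤ, |P (n + (c - c')) - P n| ≤ τ) :
    (q : ℝ) * m (cls q r * ind B * sh c' P) ≤ (q : ℝ) * m (cls q r * ind B * sh c P) + τ := by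
  have hq0 : (0 : ℝ) < q := by exact_mod_cast hq
  have h1 : m (cls q r * ind B * sh c' P) ≤ m (cls q r * ind B * sh c P + τ • cls q r) := by
    refine m_mono hm fun n => ?_
    show (cls q r * ind B * sh c' P) n ≤ (cls q r * ind B * sh c P) n + τ * cls q r n
    rw [mul_app, mul_app, mul_app, mul_app, sh_apply, sh_apply]
    have h2 := abs_le.1 (h (n + c'))
    have e1 : n + c' + (c - c') = n + c := by ring
    rw [e1] at h2
    have h3 := ind01 B n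
    have h4 : 0 ≤ cls q r n := (ind01 _ _).1
    have h6 : 0 ≤ τ := (abs_nonneg _).trans (h 0)
    have h5 : ind B n * P (n + c') ≤ ind B n * P (n + c) + τ := by nlinarith [h3.1, h3.2]
    calc cls q r n * ind B n * P (n + c') = cls q r n * (ind B n * P (n + c')) := by ring
      _ ≤ cls q r n * (ind B n * P (n + c) + τ) := mul_le_mul_of_nonneg_left h5 h4
      _ = _ := by ring
  rw [map_add, map_smul, smul_eq_mul, Pool.Agent.W681.TF.clss.2.1 m hm q r hq] at h1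
  have h2 := mul_le_mul_of_nonneg_left h1 hq0.le
  refine h2.trans (le_of_eq ?_)
  field_simp

theorem s_kn2 : S_KN2 := by
  classical
  intro ρ ε hε hερ hρ1
  obtain ⟨η, hη⟩ : ∃ η : ℝ, η = ε / 100 := ⟨_, rfl⟩
  have hη0 : 0 < η := by rw [hη]; positivity
  have hη1 : η ≤ 1 / 100 := by rw [hη]; linarith
  have hηρ : 100 * η < ρ := by rw [hη]; linarith
  obtain ⟨τ, hτ⟩ : ∃ τ : ℝ, τ = η ^ 6 / 12 := ⟨_, rfl⟩
  have hτ0 : 0 < τ := by rw [hτ]; positivity
  have hτ1 : τ ≤ 1 := by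
    rw [hτ]
    have : η ^ 6 ≤ 1 := pow_le_one₀ hη0.le (by linarith)
    linarith
  obtain ⟨τs, hτs⟩ : ∃ τs : ℝ, τs = τ / 6 := ⟨_, rfl⟩
  have hτs0 : 0 < τs := by rw [hτs]; positivity
  have hτs1 : τs ≤ 1 := by rw [hτs]; linarith
  refine ⟨τs, hτs0, fun D hD U hU => ?_⟩
  obtain ⟨m, hm, hE, hmU⟩ := Pool.Agent.W756.TF.ban U ρ hU
  refine ⟨m, hm, ?_⟩
  -- the coarse approximation
  obtain ⟨κ, hκ⟩ : ∃ κ : ℝ, κ = τs ^ 2 := ⟨_, rfl⟩
  have hκ0 : 0 < κ := by rw [hκ]; positivity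
  have hκ1 : κ ≤ 1 := by rw [hκ]; exact pow_le_one₀ hτs0.le hτs1
  obtain ⟨e, he⟩ : ∃ e : ℝ, e = κ * η / 2 := ⟨_, rfl⟩
  have he0 : 0 < e := by rw [he]; positivity
  obtain ⟨P, hP1, hP2, hP3⟩ := s_appr m hm hE U e he0
  have hPA : App m U P e := ⟨hP1, hP2, hP3⟩
  obtain ⟨q, hq, hTor⟩ := Pool.Agent.W681.TF.clss.2.2 P hP1
  obtain ⟨Λ, δ, hδ, hΛ⟩ := tor_ap hTor hτs0
  have hq0 : (0 : ℝ) < q := by exact_mod_cast hq
  -- the fine approximation
  obtain ⟨e', he'⟩ : ∃ e' : ℝ, e' = min e (τs ^ 2 / (2 * q)) := ⟨_, rfl⟩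
  have he'0 : 0 < e' := by rw [he']; exact lt_min he0 (by positivity)
  have he'1 : e' ≤ e := by rw [he']; exact min_le_left _ _
  have he'2 : 2 * e' * q ≤ τs ^ 2 := by
    have h1 : e' ≤ τs ^ 2 / (2 * q) := by rw [he']; exact min_le_right _ _
    rw [le_div_iff₀ (by positivity)] at h1
    linarith
  obtain ⟨P', hP'1, hP'2, hP'3⟩ := s_appr m hm hE U e' he'0
  have hP'A : App m U P' e' := ⟨hP'1, hP'2, hP'3⟩
  have hee : (e + e') / κ ≤ η := by
    rw [div_le_iff₀ hκ0]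
    have : e = κ * η / 2 := he
    linarith
  have heη : e ≤ η := by
    rw [he]
    nlinarith
  obtain ⟨r, hr1, hr2⟩ := Pool.Agent.W681.TF.lev m hm U P P' e e' ρ κ hκ0 hPA hP'A hmU
    (by linarith) q hq
  -- the step
  obtain ⟨P₀, hP₀⟩ := s_per 1 (fun _ => P) (fun _ => q) (fun _ => q * D)
    (fun _ _ => ⟨hTor, hq, Nat.mul_pos hq hD, Dvd.intro _ rfl⟩)
  obtain ⟨p, hpN, hp⟩ := Nat.exists_infinite_primes (max P₀ ⌈1 / η⌉₊)
  have hp0 : (0 : ℝ) < p := by exact_mod_cast hp.pos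
  have hpη : 1 ≤ η * p := by
    have h1 : 1 / η ≤ p :=
      (Nat.le_ceil _).trans (by exact_mod_cast (le_max_right _ _).trans hpN)
    rw [div_le_iff₀ hη0] at h1
    linarith
  obtain ⟨t, ht⟩ := hP₀ p hp ((le_max_left _ _).trans hpN) η hη0
  obtain ⟨ht1, ht2⟩ := ht 0 (by norm_num)
  obtain ⟨K, hK⟩ : ∃ K : ℤ, K = ((q * D : ℕ) : ℤ) * t := ⟨_, rfl⟩
  rw [← hK] at ht1 ht2
  have hqK : (q : ℤ) ∣ K := by
    rw [hK]
    exact ⟨(D : ℤ) * t, by push_cast; ring⟩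
  -- the null set
  obtain ⟨f, hf⟩ : ∃ f : ℤ →ᵇ ℝ, f = ind U - P' := ⟨_, rfl⟩
  have hf1 : ∀ n, |f n| ≤ 1 := by
    intro n
    rw [hf, sub_app, abs_le]
    have h1 := ind01 U n
    have h2 := hP'2 n
    constructor <;> linarith [h1.1, h1.2, h2.1, h2.2]
  have hnull : Null {a : ℤ | e' < |m (f * sh a f)|} := by
    have h1T : co (1 : ℤ →ᵇ ℝ) ∈ Trig := by
      have h : co (1 : ℤ →ᵇ ℝ) = 1 := by
        ext n
        simp
      rw [h]
      exact Pool.Agent.W975.FN.trg.1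
    have h1 := hP'3 1 h1T (fun n => by simp) f hf1
    rw [one_mul, ← hf] at h1
    exact h1
  obtain ⟨L0, hL0⟩ := cnt hnull (D * q) (Nat.mul_pos hD hq) he'0
  obtain ⟨H, hH⟩ : ∃ H : ℕ, H = max L0 ⌈(t : ℝ) * p / η⌉₊ + 1 := ⟨_, rfl⟩
  have hH1 : 1 ≤ H := by omega
  have hHL : L0 ≤ H := by
    rw [hH]
    exact (le_max_left _ _).trans (Nat.le_succ _)
  have hHt : (t : ℝ) * p ≤ η * H := by
    have h1 : (t : ℝ) * p / η ≤ H := by
      refine (Nat.le_ceil _).trans ?_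
      rw [hH]
      exact_mod_cast (le_max_right _ _).trans (Nat.le_succ _)
    rw [div_le_iff₀ hη0] at h1
    linarith
  have hH0 : (0 : ℝ) < H := by exact_mod_cast hH1
  refine ⟨q, r, H, Λ, δ, hq, hH1, hδ, ?_⟩
  intro A2 B2 s2 hA2 hs2 hyp
  obtain ⟨s, hs0⟩ : ∃ s : ℤ, s = 0 := ⟨_, rfl⟩
  obtain ⟨A, hAdef⟩ : ∃ A : Finset ℕ, A = A2 false ∪ A2 true := ⟨_, rfl⟩
  obtain ⟨B, hBdef⟩ : ∃ B : Set ℤ, B = B2 false ∪ B2 true := ⟨_, rfl⟩
  rw [← hAdef, ← hBdef]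
  have hA : A ⊆ range H := by
    rw [hAdef]
    exact union_subset (hA2 _) (hA2 _)
  obtain ⟨c, hc⟩ : ∃ c : ℤ → ℤ, ∀ i, c i = -(((D * q : ℕ) : ℤ) * i) + q * s := ⟨_, fun _ => rfl⟩
  have hqc : ∀ i, (q : ℤ) ∣ c i := by
    intro i
    rw [hc]
    exact ⟨-((D : ℤ) * i) + s, by push_cast; ring⟩
  -- rewriting
  have eB : ∀ B : Set ℤ, ind {y : ℤ | (q : ℤ) ∣ y - r ∧ y ∈ B} = cls q r * ind B := by
    intro B
    ext n
    rw [mul_app]
    rcases cls_sp q r n with h | h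
    · rw [h.1, one_mul]
      by_cases hn : n ∈ B
      · have h1 : n ∈ {y : ℤ | (q : ℤ) ∣ y - r ∧ y ∈ B} := ⟨h.2, hn⟩
        rw [ind_mem hn, ind_mem h1]
      · have h1 : n ∉ {y : ℤ | (q : ℤ) ∣ y - r ∧ y ∈ B} := fun h' => hn h'.2
        rw [ind_notMem hn, ind_notMem h1]
    · have h1 : n ∉ {y : ℤ | (q : ℤ) ∣ y - r ∧ y ∈ B} := fun h' => h.2 h'.1
      rw [h.1, zero_mul, ind_notMem h1]
  have eU : ∀ (B : Set ℤ) (s : ℤ) (i : ℕ), ind {y : ℤ | (q : ℤ) ∣ y - r ∧ y ∈ B ∧ y - D * (q * i) + q * s ∈ U} =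
      cls q r * ind B * sh (-(((D * q : ℕ) : ℤ) * i) + q * s) (ind U) := by
    intro B s i
    have e1 : ∀ n : ℤ, n + (-(((D * q : ℕ) : ℤ) * i) + q * s) = n - D * (q * i) + q * s := by
      intro n
      push_cast
      ring
    ext n
    rw [mul_app, mul_app, sh_apply, e1]
    rcases cls_sp q r n with h | h
    · rw [h.1, one_mul]
      by_cases hn : n ∈ B
      · rw [ind_mem hn, one_mul]
        by_cases hu : n - D * (q * i) + q * s ∈ U
        · have h1 : n ∈ {y : ℤ | (q : ℤ) ∣ y - r ∧ y ∈ B ∧ y - D * (q * i) + q * s ∈ U} :=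
            ⟨h.2, hn, hu⟩
          rw [ind_mem hu, ind_mem h1]
        · have h1 : n ∉ {y : ℤ | (q : ℤ) ∣ y - r ∧ y ∈ B ∧ y - D * (q * i) + q * s ∈ U} :=
            fun h' => hu h'.2.2
          rw [ind_notMem hu, ind_notMem h1]
      · have h1 : n ∉ {y : ℤ | (q : ℤ) ∣ y - r ∧ y ∈ B ∧ y - D * (q * i) + q * s ∈ U} :=
          fun h' => hn h'.2.1
        rw [ind_notMem hn, zero_mul, ind_notMem h1]
    · have h1 : n ∉ {y : ℤ | (q : ℤ) ∣ y - r ∧ y ∈ B ∧ y - D * (q * i) + q * s ∈ U} :=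
        fun h' => h.2 h'.1
      rw [h.1, zero_mul, zero_mul, ind_notMem h1]
  simp only [eU] at hyp
  rw [eB]
  -- the sums over the almost periodic part
  have hfirst : ∀ a b, (q : ℝ) * ∑ i ∈ A2 a, m (cls q r * ind (B2 b) * sh (c i) P) ≤ 4 * τs * H := by
    intro a b
    have hvar := var hm hf1 he'0.le (hA2 a) ((D * q : ℕ) : ℤ) (q * s2 a b) (fun j S hS h => hL0 H hHL j S hS h)
    have hs3 := step3 hm hq r (B2 b) U (P := P) (P' := P') hτs0.le (hA2 a)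
      (fun i => -(((D * q : ℕ) : ℤ) * i) + q * s2 a b) (fun i => ⟨-((D : ℤ) * i) + s2 a b, by push_cast; ring⟩)
      (hyp a b)
      (by
        rw [hf] at hvar
        exact hvar) he'2 (by rw [← hκ]; exact hr2)
    have h1 : ∀ i ∈ A2 a, (q : ℝ) * m (cls q r * ind (B2 b) * sh (c i) P) ≤
        (q : ℝ) * m (cls q r * ind (B2 b) * sh (-(((D * q : ℕ) : ℤ) * i) + q * s2 a b) P) + τs := by
      intro i _
      refine shift_le hm hq r (B2 b) fun n => ?_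
      have e1 : -(((D * q : ℕ) : ℤ) * (i : ℤ)) + q * s2 a b - c i = q * s2 a b := by
        rw [hc, hs0]
        ring
      rw [e1]
      exact hΛ _ (hs2 a b) n
    have h2 := Finset.sum_le_sum h1
    rw [Finset.sum_add_distrib, ← Finset.mul_sum, ← Finset.mul_sum, Finset.sum_const, nsmul_eq_mul] at h2
    have h3 : ((A2 a).card : ℝ) ≤ H := by
      have := card_le_card (hA2 a)
      rw [card_range] at this
      exact_mod_cast this
    have h4 : ((A2 a).card : ℝ) * τs ≤ H * τs := mul_le_mul_of_nonneg_right h3 hτs0.le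
    linarith
  have hs3 : (q : ℝ) * ∑ i ∈ A, m (cls q r * ind B * sh (c i) P) ≤ 3 * τ * H := by
    have hPn : ∀ (B : Set ℤ) (i : ℕ), 0 ≤ m (cls q r * ind B * sh (c i) P) := by
      intro B i
      refine hm.pos _ fun n => ?_
      rw [mul_app, mul_app, sh_apply]
      exact mul_nonneg (mul_nonneg (ind01 _ _).1 (ind01 _ _).1) (hP2 _).1
    have h1 : ∀ i : ℕ, m (cls q r * ind B * sh (c i) P) ≤
        m (cls q r * ind (B2 false) * sh (c i) P) + m (cls q r * ind (B2 true) * sh (c i) P) := by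
      intro i
      rw [← map_add]
      refine m_mono hm fun n => ?_
      rw [BoundedContinuousFunction.coe_add, Pi.add_apply, mul_app, mul_app, mul_app, mul_app, mul_app, mul_app,
        sh_apply, ← add_mul, ← mul_add]
      refine mul_le_mul_of_nonneg_right (mul_le_mul_of_nonneg_left ?_ (ind01 _ _).1) (hP2 _).1
      by_cases hn : n ∈ B
      · rw [ind_mem hn]
        rw [hBdef] at hn
        rcases hn with h | h
        · rw [ind_mem h]
          linarith [(ind01 (B2 true) n).1]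
        · rw [ind_mem h]
          linarith [(ind01 (B2 false) n).1]
      · rw [ind_notMem hn]
        exact add_nonneg (ind01 _ _).1 (ind01 _ _).1
    have h2 : ∑ i ∈ A, m (cls q r * ind B * sh (c i) P) ≤
        ∑ i ∈ A2 false, m (cls q r * ind B * sh (c i) P) + ∑ i ∈ A2 true, m (cls q r * ind B * sh (c i) P) := by
      rw [hAdef, ← Finset.sum_union_inter]
      have : 0 ≤ ∑ i ∈ A2 false ∩ A2 true, m (cls q r * ind B * sh (c i) P) :=
        Finset.sum_nonneg fun i _ => hPn _ _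
      linarith
    have h3 : ∀ a, ∑ i ∈ A2 a, m (cls q r * ind B * sh (c i) P) ≤
        ∑ i ∈ A2 a, m (cls q r * ind (B2 false) * sh (c i) P) +
          ∑ i ∈ A2 a, m (cls q r * ind (B2 true) * sh (c i) P) := by
      intro a
      rw [← Finset.sum_add_distrib]
      exact Finset.sum_le_sum fun i _ => h1 i
    have h4 := h2.trans (add_le_add (h3 false) (h3 true))
    have h5 := mul_le_mul_of_nonneg_left h4 hq0.le
    have e6 : 3 * τ * H = 18 * τs * H := by rw [hτs]; ring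
    have h7 : 0 ≤ τs * H := by positivity
    have h8 := hfirst false false
    have h9 := hfirst false true
    have h10 := hfirst true false
    have h11 := hfirst true true
    rw [e6]
    nlinarith
  -- averaging
  have hμ0 : ∀ i : ℕ, 0 ≤ (q : ℝ) * m (cls q r * ind B * sh (c i) P) := by
    intro i
    refine mul_nonneg hq0.le (hm.pos _ fun n => ?_)
    rw [mul_app, mul_app, sh_apply]
    exact mul_nonneg (mul_nonneg (ind01 _ _).1 (ind01 _ _).1) (hP2 _).1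
  obtain ⟨i0, hi0, hav⟩ := fin_avg hA (fun i : ℕ => (q : ℝ) * m (cls q r * ind B * sh (c i) P)) hμ0
    (lam := η / (3 * τ)) hH1 hp.one_lt.le (by positivity) hη0 hHt (by
      rw [← mul_sum]
      calc η / (3 * τ) * ((q : ℝ) * ∑ i ∈ A, m (cls q r * ind B * sh (c i) P)) ≤
          η / (3 * τ) * (3 * τ * H) := mul_le_mul_of_nonneg_left hs3 (by positivity)
        _ = η * H := by field_simp)
  obtain ⟨Az, hAz⟩ : ∃ Az : Finset ℕ, Az = (range p).filter (fun z => i0 + t * z ∈ A) := ⟨_, rfl⟩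
  rw [← hAz] at hav
  obtain ⟨α, hα⟩ : ∃ α : ℝ, α = (A.card : ℝ) / H := ⟨_, rfl⟩
  have hα0 : 0 ≤ α := by rw [hα]; positivity
  rw [← hα] at hav
  obtain ⟨Sg, hSg⟩ : ∃ Sg : ℝ, Sg = ∑ z ∈ Az, (q : ℝ) *
      m (cls q r * ind B * sh (c ((i0 + t * z : ℕ) : ℤ)) P) := ⟨_, rfl⟩
  rw [← hSg] at hav
  have hSg0 : 0 ≤ Sg := by
    rw [hSg]
    exact sum_nonneg fun z _ => hμ0 _
  have hAzc : (Az.card : ℝ) ≤ p := by
    have : Az.card ≤ p := by
      rw [hAz]
      exact (card_filter_le _ _).trans (by rw [card_range])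
    exact_mod_cast this
  have hl0 : 0 ≤ η / (3 * τ) := by positivity
  have hAz1 : (α - 3 * η) * p ≤ Az.card := by
    have := mul_nonneg hl0 hSg0
    linarith
  have hSg1 : Sg ≤ 6 * τ * p / η := by
    have h1 : η / (3 * τ) * Sg ≤ 2 * p := by nlinarith
    rw [div_mul_eq_mul_div, div_le_iff₀ (by positivity)] at h1
    rw [le_div_iff₀ hη0]
    linarith
  -- the choice of `y`
  obtain ⟨β, hβ⟩ : ∃ β : ℝ, β = (q : ℝ) * m (cls q r * ind B) := ⟨_, rfl⟩
  have hβ0 : 0 ≤ β := by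
    rw [hβ]
    refine mul_nonneg hq0.le (hm.pos _ fun n => ?_)
    rw [mul_app]
    exact mul_nonneg (ind01 _ _).1 (ind01 _ _).1
  obtain ⟨lam2, hlam2⟩ : ∃ lam2 : ℝ, lam2 = η ^ 2 / (6 * τ * p) := ⟨_, rfl⟩
  have hlam20 : 0 < lam2 := by rw [hlam2]; positivity
  obtain ⟨F, hF⟩ : ∃ F : ℤ →ᵇ ℝ, F = cls q r * ∑ w ∈ range p, sh (K * w) (ind B) -
      lam2 • (cls q r * ∑ z ∈ Az, ∑ w ∈ range p,
        sh (K * w) (ind B * sh (c ((i0 + t * z : ℕ) : ℤ)) P)) := ⟨_, rfl⟩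
  have hmF : (q : ℝ) * m F = p * β - lam2 * (p * Sg) := by
    have e1 : m (cls q r * ∑ w ∈ range p, sh (K * w) (ind B)) = p * m (cls q r * ind B) := by
      rw [mul_sum, map_sum]
      have : ∀ w ∈ range p, m (cls q r * sh (K * w) (ind B)) = m (cls q r * ind B) := fun w _ =>
        m_cls_sh hm (Dvd.dvd.mul_right hqK _) _
      rw [sum_congr rfl this, sum_const, card_range, nsmul_eq_mul]
    have e2 : m (cls q r * ∑ z ∈ Az, ∑ w ∈ range p,
        sh (K * w) (ind B * sh (c ((i0 + t * z : ℕ) : ℤ)) P)) =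
        ∑ z ∈ Az, p * m (cls q r * ind B * sh (c ((i0 + t * z : ℕ) : ℤ)) P) := by
      rw [mul_sum, map_sum]
      refine sum_congr rfl fun z _ => ?_
      rw [mul_sum, map_sum]
      have : ∀ w ∈ range p, m (cls q r * sh (K * w) (ind B * sh (c ((i0 + t * z : ℕ) : ℤ)) P)) =
          m (cls q r * ind B * sh (c ((i0 + t * z : ℕ) : ℤ)) P) := fun w _ => by
        rw [m_cls_sh hm (Dvd.dvd.mul_right hqK _), mul_assoc]
      rw [sum_congr rfl this, sum_const, card_range, nsmul_eq_mul]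
    rw [hF, map_sub, map_smul, smul_eq_mul, e1, e2, hSg, hβ, ← mul_sum, ← mul_sum]
    ring
  have hmF1 : (p : ℝ) * (β - 2 * η) < q * m F := by
    rw [hmF]
    have h1 : lam2 * (p * Sg) ≤ η * p := by
      calc lam2 * (p * Sg) ≤ lam2 * (p * (6 * τ * p / η)) :=
            mul_le_mul_of_nonneg_left (mul_le_mul_of_nonneg_left hSg1 hp0.le) hlam20.le
        _ = η * p := by
            rw [hlam2]
            field_simp
    have h2 : 0 < η * p := by positivity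
    linarith
  have hFe : ∀ y, F y = cls q r y * (∑ w ∈ range p, sh (K * w) (ind B)) y -
      lam2 * (cls q r y * (∑ z ∈ Az, ∑ w ∈ range p,
        sh (K * w) (ind B * sh (c ((i0 + t * z : ℕ) : ℤ)) P)) y) := by
    intro y
    rw [hF]
    rfl
  obtain ⟨y, hy, hyF⟩ := choose_y hm hq r F (fun y hy => by
    have h0 : cls q r y = 0 := by
      rcases cls_sp q r y with h | h
      · exact absurd h.2 hy
      · exact h.1
    rw [hFe, h0]
    ring) hmF1
  obtain ⟨By, hBy⟩ : ∃ By : Finset ℕ, By = (range p).filter (fun w : ℕ => y + K * w ∈ B) := ⟨_, rfl⟩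
  obtain ⟨Q, hQ⟩ : ∃ Q : ℤ → ℝ, ∀ v, Q v = P (y + c (i0 : ℤ) + K * v) := ⟨_, fun _ => rfl⟩
  have hFy : F y = By.card - lam2 * ∑ z ∈ Az, ∑ w ∈ By, Q ((w : ℤ) - z) := by
    have h1 : cls q r y = 1 := by
      rcases cls_sp q r y with h | h
      · exact h.1
      · exact absurd hy h.2
    rw [hFe, h1, one_mul, one_mul, sum_apply', sum_apply']
    congr 1
    · rw [hBy, card_filter]
      push_cast
      refine sum_congr rfl fun w _ => ?_
      rw [sh_apply]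
      split_ifs with h
      · exact ind_mem h
      · exact ind_notMem h
    · congr 1
      refine sum_congr rfl fun z _ => ?_
      rw [sum_apply', hBy, sum_filter]
      refine sum_congr rfl fun w _ => ?_
      rw [sh_apply, mul_app, sh_apply]
      split_ifs with h
      · rw [ind_mem h, one_mul, hQ]
        congr 1
        rw [hc, hc, hK]
        push_cast
        ring
      · rw [ind_notMem h, zero_mul]
  rw [hFy] at hyF
  have hQ01 : ∀ v, 0 ≤ Q v ∧ Q v ≤ 1 := fun v => by rw [hQ]; exact hP2 _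
  have hΨ0 : 0 ≤ ∑ z ∈ Az, ∑ w ∈ By, Q ((w : ℤ) - z) :=
    sum_nonneg fun z _ => sum_nonneg fun w _ => (hQ01 _).1
  have hByc : (By.card : ℝ) ≤ p := by
    have : By.card ≤ p := by
      rw [hBy]
      exact (card_filter_le _ _).trans (by rw [card_range])
    exact_mod_cast this
  have hBy1 : (β - 2 * η) * p ≤ By.card := by
    have := mul_nonneg hlam20.le hΨ0
    linarith
  have hΨ : ∑ z ∈ Az, ∑ w ∈ By, Q ((w : ℤ) - z) ≤ η ^ 4 * p ^ 2 := by
    have h1 : lam2 * ∑ z ∈ Az, ∑ w ∈ By, Q ((w : ℤ) - z) ≤ 2 * p := by nlinarith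
    rw [hlam2, div_mul_eq_mul_div, div_le_iff₀ (by positivity)] at h1
    have h2 : (2 : ℝ) * p * (6 * τ * p) = η ^ 2 * (η ^ 4 * p ^ 2) := by
      rw [hτ]
      ring
    rw [h2] at h1
    exact le_of_mul_le_mul_left h1 (by positivity)
  have hsum : (ρ - 3 * η) * p ≤ ∑ v ∈ range p, Q (v : ℤ) := by
    have h1 := lemA hm (P := P) (K := K) (η := η) (c := ρ - 2 * η) (x := y + c (i0 : ℤ)) hq hqK
      ht2 (le_trans (div_le_div_of_nonneg_right (by linarith) hq0.le) hr1) (by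
        have e1 : y + c (i0 : ℤ) - r = (y - r) + c (i0 : ℤ) := by ring
        rw [e1]
        exact dvd_add hy (hqc _))
    simp only [hQ]
    linarith
  have hfin := comb (Pool.Agent.W824.HF.rob Pool.Agent.W333.HF.pol) hp hη0 hη1 hηρ hpη
    (A := Az) (B := By) (by rw [hAz]; exact filter_subset _ _)
    (by rw [hBy]; exact filter_subset _ _) Q (fun v => (hQ01 v).1) (fun v => (hQ01 v).2)
    (fun v => by
      rw [hQ, hQ]
      have h1 := ht1 (y + c (i0 : ℤ) + K * v)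
      have e1 : y + c (i0 : ℤ) + K * (v + p) = y + c (i0 : ℤ) + K * v + K * p := by ring
      rw [e1]
      exact h1) hsum hΨ
  rw [← hβ, ← hα]
  have hε' : ε = 100 * η := by rw [hη]; ring
  rcases hfin with h | h | h
  · left
    have h1 : α ≤ 4 * η := by
      have h2 : (α - 3 * η) * p ≤ η * p := hAz1.trans h
      have := le_of_mul_le_mul_right h2 hp0
      linarith
    rw [hα, div_le_iff₀ hH0] at h1
    refine h1.trans ?_
    rw [hε']
    nlinarith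
  · right
    left
    have h2 : (β - 2 * η) * p ≤ (2 * η) * p := by linarith
    have := le_of_mul_le_mul_right h2 hp0
    linarith
  · right
    right
    have h2 : (α + β - 5 * η) * p ≤ (1 - ρ + 9 * η) * p := by linarith
    have := le_of_mul_le_mul_right h2 hp0
    linarith

end Pool.Agent.N679.BH
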