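import Pool.Agent.N679.BH.Kn2
import Pool.Agent.N679.SD.Str

/-! Project BH: structured families of classes, with differences in a Bohr set. -/

set_option autoImplicit false
open Filter Topology Finset
open scoped BoundedContinuousFunction

namespace Pool.Agent.N679.BH

open Pool.Agent.N679.SD
open Pool.Agent.W634.BQ Pool.Agent.W505.BQ Pool.Agent.W27.FB Pool.Agent.W142.TF

theorem bo_norm (θ : Circle) (x y : ℤ) :
    ‖((θ ^ (x + y) : Circle) : ℂ) - 1‖ ≤ ‖((θ ^ x : Circle) : ℂ) - 1‖ + ‖((θ ^ y : Circle) : ℂ) - 1‖ := by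
  have e : ((θ ^ (x + y) : Circle) : ℂ) - 1 = ((θ ^ x : Circle) : ℂ) * (((θ ^ y : Circle) : ℂ) - 1) +
      (((θ ^ x : Circle) : ℂ) - 1) := by
    rw [zpow_add]
    push_cast
    ring
  rw [e]
  refine (norm_add_le _ _).trans ?_
  rw [norm_mul, Circle.norm_coe, one_mul, add_comm]

theorem bo_neg_norm (θ : Circle) (x : ℤ) :
    ‖((θ ^ (-x) : Circle) : ℂ) - 1‖ = ‖((θ ^ x : Circle) : ℂ) - 1‖ := by
  have e : ((θ ^ (-x) : Circle) : ℂ) - 1 = -(((θ ^ (-x) : Circle) : ℂ) * (((θ ^ x : Circle) : ℂ) - 1)) := by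
    have h : ((θ ^ (-x) : Circle) : ℂ) * ((θ ^ x : Circle) : ℂ) = 1 := by
      rw [← Circle.coe_mul, ← zpow_add, neg_add_cancel, zpow_zero, Circle.coe_one]
    rw [mul_sub, h]
    ring
  rw [e, norm_neg, norm_mul, Circle.norm_coe, one_mul]

theorem bo_sub {Λ : Finset Circle} {a b : ℝ} {x y : ℤ} (hx : x ∈ Bo Λ a) (hy : y ∈ Bo Λ b) :
    x - y ∈ Bo Λ (a + b) := by
  intro θ hθ
  rw [sub_eq_add_neg]
  refine (bo_norm θ x (-y)).trans_lt ?_
  rw [bo_neg_norm]
  exact add_lt_add (hx θ hθ) (hy θ hθ)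

theorem bo_mul {Λ : Finset Circle} {a : ℝ} {x : ℤ} (hx : x ∈ Bo Λ a) (ha : 0 < a) :
    ∀ D : ℕ, 1 ≤ D → (D : ℤ) * x ∈ Bo Λ (D * a) := by
  intro D hD
  induction D, hD using Nat.le_induction with
  | base => simpa using hx
  | succ D hD ih =>
    intro θ hθ
    have e : ((D + 1 : ℕ) : ℤ) * x = (D : ℤ) * x + x := by push_cast; ring
    rw [e]
    refine (bo_norm θ _ _).trans_lt ?_
    have h1 := ih θ hθ
    have h2 := hx θ hθ
    have e2 : ((D + 1 : ℕ) : ℝ) * a = D * a + a := by push_cast; ring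
    rw [e2]
    exact add_lt_add h1 h2

open Classical in
theorem str2 (hKN : S_KN2) (ρ : ℝ) (hρ : 0 < ρ) (hρ1 : ρ ≤ 1) : ∃ n₀ : ℕ, ∀ n : ℕ, n₀ ≤ n →
    ∀ D : ℕ, 1 ≤ D → ∀ U : Set ℤ,
    (∀ L₀ : ℕ, ∃ L : ℕ, L₀ ≤ L ∧ ∃ u : ℤ, ρ * L ≤ ({n : ℕ | n < L ∧ u + (n : ℤ) ∈ U}.ncard : ℝ)) →
    ∀ K : ℕ, 1 ≤ K → ∃ (q K' : ℕ) (Λ : Finset Circle) (δ : ℝ), 1 ≤ q ∧ 1 ≤ K' ∧ 0 < δ ∧ ∀ V : Set ℤ,
    (∃ L L' : Fin K' → ℤ, Function.Injective L ∧ Function.Injective L' ∧
      ∀ i j, (q : ℤ) * (L' j - L i) ∈ V ∩ Bo Λ δ) →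
    ∃ X Z : Bool → Fin n → Fin K → ℤ,
      (∀ a i k a' i' k', X a i k = X a' i' k' → a = a' ∧ i = i' ∧ k = k') ∧
      (∀ a i k a' i' k', Z a i k = Z a' i' k' → a = a' ∧ i = i' ∧ k = k') ∧
      (∀ a i k a' i' k', X a i k ≠ Z a' i' k') ∧
      (∀ i k k', X true i k' - X false i k ∈ V) ∧ (∀ i k k', Z true i k' - Z false i k ∈ V) ∧
      ∀ S S' : Bool → Finset (Fin n), Disjoint (S false) (S true) → Disjoint (S' false) (S' true) →
        (10 / 9 : ℝ) * n ≤ ((S false).card + (S true).card + (S' false).card + (S' true).card : ℕ) →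
        ∃ a b, ∃ i ∈ S a, ∃ j ∈ S' b, ∀ k k', Z b j k' - D * X a i k ∈ U := by
  obtain ⟨ε, hεe⟩ : ∃ ε : ℝ, ε = 1 / 40 := ⟨_, rfl⟩
  have hε : 0 < ε := by rw [hεe]; norm_num
  obtain ⟨ε₁, hε₁⟩ : ∃ ε₁ : ℝ, ε₁ = min (ρ / 2) ε := ⟨_, rfl⟩
  have hε₁0 : 0 < ε₁ := by rw [hε₁]; exact lt_min (by positivity) hε
  have hε₁ρ : ε₁ < ρ := by
    have : ε₁ ≤ ρ / 2 := by rw [hε₁]; exact min_le_left _ _
    linarith
  have hε₁ε : ε₁ ≤ ε := by rw [hε₁]; exact min_le_right _ _
  obtain ⟨τ, hτ, hkn⟩ := hKN ρ ε₁ hε₁0 hε₁ρ hρ1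
  obtain ⟨n₀, hn₀⟩ := smp τ ε (10 / 9 - ε) hτ hε (by linarith)
  refine ⟨max 1 n₀, fun n hn D hD U hU K hK => ?_⟩
  have hn1 : 1 ≤ n := (le_max_left _ _).trans hn
  obtain ⟨m, hm, q, r, H, Λ, δ, hq, hH, hδ, hkn⟩ := hkn D hD U hU
  have hqr : (0 : ℝ) < q := by exact_mod_cast hq
  have hq0 : (0 : ℤ) < q := by exact_mod_cast hq
  have hHr : (0 : ℝ) < H := by exact_mod_cast hH
  -- the number of colours
  set Mt : Type := Bool × Bool × Fin n × Fin n → Bool with hMt
  obtain ⟨N, hN⟩ := Pool.Agent.H362R2.CM.box_lemma 4 (n * K) (1 / (2 * (Fintype.card Mt + 1))) (by positivity)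
  set K₀ : ℕ := max N 1 with hK₀
  have hK₀1 : 1 ≤ K₀ := le_max_right _ _
  have hD0 : (0 : ℝ) < D := by exact_mod_cast hD
  obtain ⟨δ', hδ'⟩ : ∃ δ' : ℝ, δ' = δ / (2 * (D + 1)) := ⟨_, rfl⟩
  have hδ'0 : 0 < δ' := by rw [hδ']; positivity
  refine ⟨q, 2 * K₀ * (2 * H + 1) + 1, Λ, δ', hq, Nat.le_add_left _ _, hδ'0, fun V hV => ?_⟩
  obtain ⟨fam₀, hfV₀, hfs₀⟩ := sep_of (V := V ∩ Bo Λ δ') (q := q) H K₀ hV
  obtain ⟨fam, hfam⟩ : ∃ fam : Bool → Fin K₀ → ℤ, fam = fun a i => fam₀ a i - fam₀ false ⟨0, hK₀1⟩ := ⟨_, rfl⟩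
  have hfV : ∀ i j, (q : ℤ) * (fam true j - fam false i) ∈ V := by
    intro i j
    have h1 := (hfV₀ i j).1
    rw [hfam]
    simp only
    have e : fam₀ true j - fam₀ false ⟨0, hK₀1⟩ - (fam₀ false i - fam₀ false ⟨0, hK₀1⟩) =
        fam₀ true j - fam₀ false i := by ring
    rw [e]
    exact h1
  have hfs : ∀ a i a' i', (a, i) ≠ (a', i') → (H : ℤ) < |fam a i - fam a' i'| := by
    intro a i a' i' hne
    rw [hfam]
    simp only
    have e : fam₀ a i - fam₀ false ⟨0, hK₀1⟩ - (fam₀ a' i' - fam₀ false ⟨0, hK₀1⟩) =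
        fam₀ a i - fam₀ a' i' := by ring
    rw [e]
    exact hfs₀ a i a' i' hne
  have hfB : ∀ a i, (q : ℤ) * fam a i ∈ Bo Λ (δ' + δ') := by
    intro a i
    have h1 := (hfV₀ ⟨0, hK₀1⟩ ⟨0, hK₀1⟩).2
    cases a
    · have h2 := (hfV₀ i ⟨0, hK₀1⟩).2
      have e : (q : ℤ) * fam false i = q * (fam₀ true ⟨0, hK₀1⟩ - fam₀ false ⟨0, hK₀1⟩) -
          q * (fam₀ true ⟨0, hK₀1⟩ - fam₀ false i) := by
        rw [hfam]
        ring
      rw [e]
      exact bo_sub h1 h2
    · have h2 := (hfV₀ ⟨0, hK₀1⟩ i).2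
      have e : (q : ℤ) * fam true i = q * (fam₀ true i - fam₀ false ⟨0, hK₀1⟩) := by
        rw [hfam]
      rw [e]
      intro θ hθ
      exact (h2 θ hθ).trans (by linarith)
  -- shifts and patterns
  set sft : (Fin 4 → Fin K₀) → Bool → Bool → ℤ := fun κ a b => fam b (κ (ib b)) - D * fam a (κ (ia a)) with hsft
  set J : Type := Fin H × (Fin 4 → Fin K₀) × Bool × Bool with hJ
  set pat : ℤ → (J → Bool) := fun y p =>
    decide (y - D * (q * (p.1 : ℕ)) + q * sft p.2.1 p.2.2.1 p.2.2.2 ∈ U) with hpat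
  set v : (J → Bool) → ℝ := fun π => q * m (ind {y : ℤ | (q : ℤ) ∣ y - r ∧ pat y = π}) with hv
  obtain ⟨E, hE⟩ : ∃ E : (Fin 4 → Fin K₀) → Bool → Bool → Fin H → (J → Bool) → Prop, E = fun κ a b i π =>
    π (i, κ, a, b) = true := ⟨_, rfl⟩
  have hv0 : ∀ π, 0 ≤ v π := fun π => mul_nonneg hqr.le (m_ind_nonneg hm _)
  have hvB : ∀ B : Finset (J → Bool), ∑ π ∈ B, v π = q * m (ind {y : ℤ | (q : ℤ) ∣ y - r ∧ pat y ∈ B}) := by
    intro B
    rw [hv]
    simp only
    rw [← Finset.mul_sum, m_fiber pat (fun y => (q : ℤ) ∣ y - r) B]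
  have hv1 : ∑ π, v π = 1 := by
    rw [hvB]
    have e1 : {y : ℤ | (q : ℤ) ∣ y - r ∧ pat y ∈ (univ : Finset (J → Bool))} = {a : ℤ | (q : ℤ) ∣ a - r} := by
      ext y
      simp
    rw [e1]
    have e2 := Pool.Agent.W681.TF.clss.2.1 m hm q r hq
    unfold cls at e2
    rw [e2]
    field_simp
  -- the shifts lie in the Bohr set
  have hsB : ∀ κ a b, (q : ℤ) * sft κ a b ∈ Bo Λ δ := by
    intro κ a b
    have e : (q : ℤ) * sft κ a b = q * fam b (κ (ib b)) - D * (q * fam a (κ (ia a))) := by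
      rw [hsft]
      ring
    rw [e]
    have h1 := bo_sub (hfB b (κ (ib b))) (bo_mul (hfB a (κ (ia a))) (by linarith) D hD)
    have e2 : δ' + δ' + D * (δ' + δ') = δ := by
      rw [hδ']
      field_simp
      ring
    rw [e2] at h1
    exact h1
  -- no near cliques
  have hR : ∀ κ, ∀ (_ : DecidableEq (J → Bool)) (A : Bool → Finset (Fin H)) (B : Bool → Finset (J → Bool)),
      (∀ a b, ∑ x ∈ A a, ∑ y ∈ B b, (if E κ a b x y then v y else 0) ≤ τ * H) →
      ((A false ∪ A true).card : ℝ) / H + ∑ y ∈ B false ∪ B true, v y ≤ 10 / 9 - ε := by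
    intro κ _ A B hAB
    have h1 := hkn (fun a => (A a).image (fun i : Fin H => (i : ℕ))) (fun b => {y | pat y ∈ B b}) (sft κ) (by
        intro a i hi
        obtain ⟨j, _, rfl⟩ := mem_image.1 hi
        exact mem_range.2 j.2) (fun a b => hsB κ a b)
        (by
          intro a b
          refine le_of_eq_of_le ?_ (hAB a b)
          rw [Finset.sum_image (fun i _ j _ h => Fin.ext h), Finset.mul_sum]
          refine Finset.sum_congr rfl fun x _ => ?_
          rw [← Finset.sum_filter, hvB]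
          congr 2
          congr 1
          ext y
          simp only [Set.mem_ofPred_eq, mem_filter, hE, hpat, decide_eq_true_eq])
    have hc : ((A false).image (fun i : Fin H => (i : ℕ)) ∪ (A true).image (fun i : Fin H => (i : ℕ))).card =
        (A false ∪ A true).card := by
      rw [← Finset.image_union]
      exact card_image_of_injective _ Fin.val_injective
    have e3 : q * m (ind {y : ℤ | (q : ℤ) ∣ y - r ∧ y ∈ {y | pat y ∈ B false} ∪ {y | pat y ∈ B true}}) =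
        ∑ y ∈ B false ∪ B true, v y := by
      rw [hvB]
      congr 3
      ext y
      simp only [Set.mem_ofPred_eq, Set.mem_union, mem_union]
    rw [hc, e3] at h1
    have hcard : ((A false ∪ A true).card : ℝ) / H ≤ 1 := by
      rw [div_le_one hHr]
      have := Finset.card_le_univ (A false ∪ A true)
      rw [Fintype.card_fin] at this
      exact_mod_cast this
    have hvle : ∑ y ∈ B false ∪ B true, v y ≤ 1 := by
      rw [← hv1]
      exact Finset.sum_le_sum_of_subset_of_nonneg (Finset.subset_univ _) (fun z _ _ => hv0 z)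
    rcases h1 with h1 | h1 | h1
    · have h2 : ((A false ∪ A true).card : ℝ) / H ≤ ε₁ := by
        rw [div_le_iff₀ hHr]
        exact h1
      linarith
    · linarith
    · linarith
  -- sampling
  set w : Fin H × (J → Bool) → ℝ := fun z => v z.2 / H with hw
  have hw0 : ∀ z, 0 ≤ w z := fun z => div_nonneg (hv0 _) hHr.le
  have hw1 : ∑ z, w z = 1 := by
    rw [Fintype.sum_prod_type]
    have e1 : ∀ x : Fin H, ∑ y : J → Bool, w (x, y) = 1 / H := by
      intro x
      rw [hw]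
      simp only
      rw [← Finset.sum_div, hv1]
    simp only [e1]
    rw [Finset.sum_const, Finset.card_univ, Fintype.card_fin, nsmul_eq_mul]
    field_simp
  have hsmp : ∀ κ, ∑ ω : Fin n → Fin H × (J → Bool), wt w ω * (if Clq (10 / 9) (E κ) ω then 1 else 0) ≤ 1 / 2 := by
    intro κ
    have h1 := hn₀ n ((le_max_right _ _).trans hn) H hH (J → Bool) v hv0 hv1 (E κ)
      (fun A B hAB => hR κ _ A B hAB)
    have e1 : (10 / 9 - ε + ε : ℝ) = 10 / 9 := by ring
    rw [e1] at h1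
    exact h1
  obtain ⟨ω, hω, hωc⟩ := exists_le_mean (wt w) (fun ω : Fin n → Fin H × (J → Bool) =>
    ∑ κ : Fin 4 → Fin K₀, (if Clq (10 / 9) (E κ) ω then (1 : ℝ) else 0)) (wt_nonneg hw0) (sum_wt hw1)
    ((Fintype.card (Fin 4 → Fin K₀) : ℝ) * (1 / 2)) (by
      calc ∑ ω : Fin n → Fin H × (J → Bool), wt w ω * ∑ κ : Fin 4 → Fin K₀,
            (if Clq (10 / 9) (E κ) ω then (1 : ℝ) else 0)
          = ∑ κ : Fin 4 → Fin K₀, ∑ ω : Fin n → Fin H × (J → Bool), wt w ω *
            (if Clq (10 / 9) (E κ) ω then (1 : ℝ) else 0) := by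
            rw [Finset.sum_comm]
            exact Finset.sum_congr rfl fun ω _ => Finset.mul_sum _ _ _
        _ ≤ ∑ _κ : Fin 4 → Fin K₀, (1 / 2 : ℝ) := Finset.sum_le_sum fun κ _ => hsmp κ
        _ = _ := by rw [Finset.sum_const, Finset.card_univ, nsmul_eq_mul])
  -- the good quadruples
  set P : Finset (Fin 4 → Fin K₀) := univ.filter (fun κ => ¬ Clq (10 / 9) (E κ) ω) with hP
  have hPc : (Fintype.card (Fin 4 → Fin K₀) : ℝ) * (1 / 2) ≤ P.card := by
    have h1 : ∑ κ : Fin 4 → Fin K₀, (if Clq (10 / 9) (E κ) ω then (1 : ℝ) else 0) =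
        ((univ.filter (fun κ => Clq (10 / 9) (E κ) ω)).card : ℝ) := by
      rw [Finset.card_filter]
      push_cast
      rfl
    rw [h1] at hωc
    have h2 := Finset.card_filter_add_card_filter_not (s := (univ : Finset (Fin 4 → Fin K₀)))
      (fun κ => Clq (10 / 9) (E κ) ω)
    rw [Finset.card_univ] at h2
    have h3 : (((univ.filter (fun κ => Clq (10 / 9) (E κ) ω)).card : ℕ) : ℝ) + (P.card : ℝ) =
        (Fintype.card (Fin 4 → Fin K₀) : ℝ) := by exact_mod_cast h2
    linarith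
  set col : (Fin 4 → Fin K₀) → Mt := fun κ p => (ω p.2.2.2).2 ((ω p.2.2.1).1, κ, p.1, p.2.1) with hcol
  have hMt0 : (0 : ℝ) < Fintype.card Mt + 1 := by positivity
  obtain ⟨M, hM⟩ : ∃ M : Mt, 1 / (2 * (Fintype.card Mt + 1) : ℝ) * (Fintype.card (Fin 4 → Fin K₀) : ℝ) ≤
      ((P.filter (fun κ => col κ = M)).card : ℝ) := by
    by_contra hcon
    push Not at hcon
    have h1 : (P.card : ℝ) = ∑ M : Mt, ((P.filter (fun κ => col κ = M)).card : ℝ) := by
      have := Finset.card_eq_sum_card_fiberwise (f := col) (s := P) (t := (univ : Finset Mt))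
        (fun _ _ => mem_univ _)
      rw [this]
      push_cast
      rfl
    have h2 : ∑ M : Mt, ((P.filter (fun κ => col κ = M)).card : ℝ) ≤
        ∑ _M : Mt, 1 / (2 * (Fintype.card Mt + 1) : ℝ) * (Fintype.card (Fin 4 → Fin K₀) : ℝ) :=
      Finset.sum_le_sum fun M _ => (hcon M).le
    rw [Finset.sum_const, Finset.card_univ, nsmul_eq_mul] at h2
    have h3 : (0 : ℝ) < Fintype.card (Fin 4 → Fin K₀) := by
      have : 0 < Fintype.card (Fin 4 → Fin K₀) := Fintype.card_pos_iff.2 ⟨fun _ => ⟨0, by omega⟩⟩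
      exact_mod_cast this
    have h4 : (Fintype.card Mt : ℝ) * (1 / (2 * (Fintype.card Mt + 1) : ℝ) * (Fintype.card (Fin 4 → Fin K₀) : ℝ)) <
        (Fintype.card (Fin 4 → Fin K₀) : ℝ) * (1 / 2) := by
      have h5 : (Fintype.card Mt : ℝ) * (1 / (2 * (Fintype.card Mt + 1) : ℝ)) < 1 / 2 := by
        rw [mul_one_div, div_lt_iff₀ (by positivity)]
        linarith
      calc _ = (Fintype.card Mt : ℝ) * (1 / (2 * (Fintype.card Mt + 1) : ℝ)) * (Fintype.card (Fin 4 → Fin K₀) : ℝ) := by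
            ring
        _ < 1 / 2 * (Fintype.card (Fin 4 → Fin K₀) : ℝ) := mul_lt_mul_of_pos_right h5 h3
        _ = _ := by ring
    linarith
  obtain ⟨A4, hA4, hA4P⟩ := hN (Fin K₀) (fun _ => univ) (fun _ => by
      rw [card_univ, Fintype.card_fin]; exact le_max_left _ _)
    (P.filter (fun κ => col κ = M)) (by rw [Fintype.piFinset_univ]; exact subset_univ _) (by
      refine le_of_eq_of_le ?_ hM
      congr 1
      rw [Finset.prod_const, card_univ, card_univ, Fintype.card_fin, Fintype.card_fun, Fintype.card_fin, Fintype.card_fin]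
      push_cast
      rfl)
  -- the points y
  have hvω : ∀ j, 0 < v (ω j).2 := by
    intro j
    have h1 : w (ω j) ≠ 0 := by
      intro h0
      have : wt w ω = 0 := Finset.prod_eq_zero (mem_univ j) h0
      linarith
    have h2 := lt_of_le_of_ne (hw0 (ω j)) (Ne.symm h1)
    by_contra hcon
    push Not at hcon
    have : w (ω j) ≤ 0 := div_nonpos_of_nonpos_of_nonneg hcon hHr.le
    linarith
  set fb : ℤ := ∑ a, ∑ i, |fam a i| with hfb
  have hfb1 : ∀ a i, |fam a i| ≤ fb := by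
    intro a i
    refine (Finset.single_le_sum (f := fun i => |fam a i|) (fun _ _ => abs_nonneg _) (mem_univ i)).trans ?_
    exact Finset.single_le_sum (f := fun a => ∑ i, |fam a i|) (fun _ _ => Finset.sum_nonneg fun _ _ => abs_nonneg _)
      (mem_univ a)
  have hfb0 : 0 ≤ fb := (abs_nonneg _).trans (hfb1 true ⟨0, by omega⟩)
  set Rr : ℤ := q * (H + 2 * fb) with hRr
  obtain ⟨y, hy⟩ := sepinf Rr n (fun j => if hj : j < n then {y : ℤ | (q : ℤ) ∣ y - r ∧ pat y = (ω ⟨j, hj⟩).2} else ∅)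
    (by
      intro j hj
      rw [dif_pos hj]
      apply infinite_of_pos hm
      have h1 := hvω ⟨j, hj⟩
      rw [hv] at h1
      exact (mul_pos_iff_of_pos_left hqr).1 h1) n le_rfl
  have hyp : ∀ j : Fin n, pat (y j) = (ω j).2 := by
    intro j
    have h1 := (hy j j.2).1
    rw [dif_pos j.2] at h1
    exact h1.2
  -- the classes
  set e : Fin n → Fin K → Fin (n * K) := fun i k => finProdFinEquiv (i, k) with he
  have heinj : ∀ i k i' k', e i k = e i' k' → i = i' ∧ k = k' := by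
    intro i k i' k' h
    have := finProdFinEquiv.injective h
    exact ⟨congrArg Prod.fst this, congrArg Prod.snd this⟩
  set X : Bool → Fin n → Fin K → ℤ := fun a i k => q * (((ω i).1 : ℕ) + fam a (A4 (ia a) (e i k))) with hX
  set Z : Bool → Fin n → Fin K → ℤ := fun b j k => y j + q * fam b (A4 (ib b) (e j k)) with hZ
  refine ⟨X, Z, ?_, ?_, ?_, ?_, ?_, ?_⟩
  · intro a i k a' i' k' h
    have h1 : (((ω i).1 : ℕ) : ℤ) + fam a (A4 (ia a) (e i k)) =
        (((ω i').1 : ℕ) : ℤ) + fam a' (A4 (ia a') (e i' k')) := mul_left_cancel₀ hq0.ne' h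
    have h2 : (a, A4 (ia a) (e i k)) = (a', A4 (ia a') (e i' k')) := by
      by_contra hne
      have h3 := hfs _ _ _ _ hne
      have h4 : fam a (A4 (ia a) (e i k)) - fam a' (A4 (ia a') (e i' k')) =
          (((ω i').1 : ℕ) : ℤ) - (((ω i).1 : ℕ) : ℤ) := by linarith
      rw [h4] at h3
      have h5 := (ω i).1.2
      have h6 := (ω i').1.2
      have h7 : |(((ω i').1 : ℕ) : ℤ) - (((ω i).1 : ℕ) : ℤ)| ≤ H := by
        rw [abs_le]
        constructor <;> omega
      linarith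
    have h8 : a = a' := congrArg Prod.fst h2
    subst h8
    have h9 := heinj _ _ _ _ (hA4 _ (congrArg Prod.snd h2))
    exact ⟨rfl, h9.1, h9.2⟩
  · intro b j k b' j' k' h
    have h0 : y j + q * fam b (A4 (ib b) (e j k)) = y j' + q * fam b' (A4 (ib b') (e j' k')) := h
    have h1 : j = j' := by
      by_contra hne
      have h2 : Rr < |y j - y j'| := by
        rcases lt_or_gt_of_ne (fun h => hne (Fin.ext h) : (j : ℕ) ≠ j') with h3 | h3
        · rw [abs_sub_comm]
          exact (hy j' j'.2).2.2 j h3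
        · exact (hy j j.2).2.2 j' h3
      have h3 : y j - y j' = q * (fam b' (A4 (ib b') (e j' k')) - fam b (A4 (ib b) (e j k))) := by linarith
      rw [h3, abs_mul, abs_of_pos hq0] at h2
      have h4 : |fam b' (A4 (ib b') (e j' k')) - fam b (A4 (ib b) (e j k))| ≤ 2 * fb := by
        refine (abs_sub _ _).trans ?_
        linarith [hfb1 b' (A4 (ib b') (e j' k')), hfb1 b (A4 (ib b) (e j k))]
      have h5 : (q : ℤ) * |fam b' (A4 (ib b') (e j' k')) - fam b (A4 (ib b) (e j k))| ≤ q * (H + 2 * fb) := by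
        apply mul_le_mul_of_nonneg_left _ hq0.le
        have : (0 : ℤ) ≤ H := Nat.cast_nonneg _
        linarith
      linarith
    subst h1
    have h6 : fam b (A4 (ib b) (e j k)) = fam b' (A4 (ib b') (e j k')) := by
      have : (q : ℤ) * fam b (A4 (ib b) (e j k)) = q * fam b' (A4 (ib b') (e j k')) := by linarith
      exact mul_left_cancel₀ hq0.ne' this
    have h2 : (b, A4 (ib b) (e j k)) = (b', A4 (ib b') (e j k')) := by
      by_contra hne
      have h3 := hfs _ _ _ _ hne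
      rw [h6, sub_self, abs_zero] at h3
      have : (0 : ℤ) ≤ H := Nat.cast_nonneg _
      linarith
    have h8 : b = b' := congrArg Prod.fst h2
    subst h8
    have h9 := heinj _ _ _ _ (hA4 _ (congrArg Prod.snd h2))
    exact ⟨rfl, rfl, h9.2⟩
  · intro a i k b j k' h
    have h0 : (q : ℤ) * (((ω i).1 : ℕ) + fam a (A4 (ia a) (e i k))) = y j + q * fam b (A4 (ib b) (e j k')) := h
    have h1 := (hy j j.2).2.1
    have h2 : y j = q * (((ω i).1 : ℕ) + fam a (A4 (ia a) (e i k)) - fam b (A4 (ib b) (e j k'))) := by linarith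
    rw [h2, abs_mul, abs_of_pos hq0] at h1
    have h3 : |(((ω i).1 : ℕ) : ℤ) + fam a (A4 (ia a) (e i k)) - fam b (A4 (ib b) (e j k'))| ≤ H + 2 * fb := by
      have h4 := abs_le.1 (hfb1 a (A4 (ia a) (e i k)))
      have h5 := abs_le.1 (hfb1 b (A4 (ib b) (e j k')))
      have h6 := (ω i).1.2
      have h7 : (((ω i).1 : ℕ) : ℤ) ≤ H := by exact_mod_cast h6.le
      have h8 : (0 : ℤ) ≤ (((ω i).1 : ℕ) : ℤ) := Nat.cast_nonneg _
      rw [abs_le]
      constructor <;> linarith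
    have h5 := mul_le_mul_of_nonneg_left h3 hq0.le
    linarith
  · intro i k k'
    have h1 := hfV (A4 (ia false) (e i k)) (A4 (ia true) (e i k'))
    have h2 : X true i k' - X false i k = q * (fam true (A4 (ia true) (e i k')) - fam false (A4 (ia false) (e i k))) := by
      rw [hX]; ring
    rw [h2]
    exact h1
  · intro j k k'
    have h1 := hfV (A4 (ib false) (e j k)) (A4 (ib true) (e j k'))
    have h2 : Z true j k' - Z false j k = q * (fam true (A4 (ib true) (e j k')) - fam false (A4 (ib false) (e j k))) := by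
      rw [hZ]; ring
    rw [h2]
    exact h1
  · intro S S' hS hS' hcard
    have hnK : 0 < n * K := Nat.mul_pos hn1 hK
    have hmem : ∀ c : Fin 4 → Fin (n * K), ¬ Clq (10 / 9) (E (fun i => A4 i (c i))) ω ∧ col (fun i => A4 i (c i)) = M := by
      intro c
      have h1 := mem_filter.1 (hA4P c)
      exact ⟨(mem_filter.1 h1.1).2, h1.2⟩
    have h1 := (hmem (fun _ => ⟨0, hnK⟩)).1
    unfold Clq at h1
    push Not at h1
    obtain ⟨a, b, i, hi, j, hj, hEij⟩ := h1 S S' hS hS' hcard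
    refine ⟨a, b, i, hi, j, hj, fun k k' => ?_⟩
    -- the entry of the matrix
    have hent : M (a, b, i, j) = true := by
      rw [← (hmem (fun _ => ⟨0, hnK⟩)).2]
      rw [hE] at hEij
      exact hEij
    set c : Fin 4 → Fin (n * K) := fun t => if t = ia a then e i k else e j k' with hc
    have hca : c (ia a) = e i k := if_pos rfl
    have hcb : c (ib b) = e j k' := if_neg (ia_ne_ib a b).symm
    have h2 := (hmem c).2
    have h3 : (ω j).2 ((ω i).1, (fun i => A4 i (c i)), a, b) = true := by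
      rw [← hent, ← h2]
    rw [← hyp j] at h3
    simp only [hpat, decide_eq_true_eq, hsft, hca, hcb] at h3
    have h4 : Z b j k' - D * X a i k = y j - D * (q * (((ω i).1 : ℕ) : ℤ)) +
        q * (fam b (A4 (ib b) (e j k')) - D * fam a (A4 (ia a) (e i k))) := by
      rw [hX, hZ]
      ring
    rw [h4]
    exact h3

end Pool.Agent.N679.BH
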